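import Pool.Agent.W420.NS.Stm

/-!
# Identified labels are equal; soundness of the checking functions
-/

set_option autoImplicit false

namespace Pool.Agent.W120.NS

open Pool.Agent.W420.NS

theorem nbeq {a b : ℕ} : Nat.beq a b = true ↔ a = b := by
  rw [Nat.beq_eq]

theorem uniN : ∀ (n : ℕ) (r : List (ℕ × ℕ)), r.length = n →
    ∀ x ∈ r, uniteN n r x.1 = uniteN n r x.2
  | 0, r, h, x, hx => by
    have h0 := List.length_eq_zero_iff.1 h
    subst h0
    simp at hx
  | n + 1, [], h, x, hx => by simp at h
  | n + 1, (p, q) :: r, h, x, hx => by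
    simp only [uniteN]
    rcases List.mem_cons.1 hx with rfl | hx
    · have h1 : sub1 p q p = p := by
        unfold sub1
        cases hb : Nat.beq p q <;> simp
      have h2 : sub1 p q q = p := by
        unfold sub1
        have : Nat.beq q q = true := nbeq.2 rfl
        rw [this]
        rfl
      simp only [h1, h2]
    · exact uniN n (r.map fun x => (sub1 p q x.1, sub1 p q x.2)) (by simpa using h)
        (sub1 p q x.1, sub1 p q x.2) (List.mem_map.2 ⟨x, hx, rfl⟩)

theorem t_UNI : S_UNI := fun r x hx => uniN r.length r rfl x hx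

theorem all_find (f : ℕ → Bool) : ∀ (T : BT) (x n : ℕ), n ∈ T.find x → T.all f = true → f n = true
  | .nil, x, n, h, _ => by simp [BT.find] at h
  | .node k v l r, x, n, h, ha => by
    simp only [BT.all, Bool.and_eq_true] at ha
    obtain ⟨h1, h2, h3⟩ := ha
    simp only [BT.find] at h
    cases hb : Nat.beq x k with
    | true =>
      rw [hb] at h
      exact List.all_eq_true.1 h1 n h
    | false =>
      rw [hb] at h
      cases hc : Nat.blt x k with
      | true =>
        rw [hc] at h
        exact all_find f l x n h h2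
      | false =>
        rw [hc] at h
        exact all_find f r x n h h3

theorem eqS_eq : ∀ (a b : St), eqS a b = true → a = b
  | [], [], _ => rfl
  | [], y :: b, h => by simp [eqS] at h
  | x :: a, [], h => by simp [eqS] at h
  | x :: a, y :: b, h => by
    simp only [eqS, Bool.and_eq_true, nbeq] at h
    rw [eqS_eq a b h.2, Prod.ext h.1.1 h.1.2]

theorem zip_key : ∀ (l l' : St), l.length = l'.length →
    (∀ x ∈ l.zip l', x.2.1 = neg x.1.1) → l'.map Prod.fst = l.map fun x => neg x.1
  | [], [], _, _ => rfl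
  | [], y :: b, h, _ => by simp at h
  | x :: a, [], h, _ => by simp at h
  | x :: a, y :: b, h, hx => by
    have h1 : y.1 = neg x.1 := hx (x, y) (by simp)
    have h2 := zip_key a b (by simpa using h) fun z hz => hx z (by simp [hz])
    simp only [List.map_cons, h1, h2]

theorem opn_B {s : ℕ} {a b : St} (h : Opn s a b) : opnB s a b (mrg s a b) = true := by
  obtain ⟨h1, h2⟩ := h
  unfold opnB
  rw [Bool.and_eq_true]
  constructor
  · rw [List.all_eq_true]
    intro x hx
    cases hT : isT x.1 with
    | false => rfl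
    | true =>
      obtain ⟨y, hy, hy1, hy2⟩ := h1 x hx hT
      simp only [Bool.not_true, Bool.false_or, List.any_eq_true, Bool.and_eq_true, nbeq]
      exact ⟨y, hy, hy1, hy2⟩
  · rw [List.all_eq_true]
    intro x hx
    cases hT : isT x.1 with
    | false => rfl
    | true =>
      obtain ⟨y, hy, hy1, hy2⟩ := h2 x hx hT
      simp only [Bool.not_true, Bool.false_or, List.any_eq_true, Bool.and_eq_true, nbeq]
      exact ⟨y, hy, hy1, hy2⟩

theorem crs_B {r t : St} (h : crsB r t = true) : Crs r t := by
  unfold crsB at h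
  simp only [Bool.and_eq_true, nbeq, List.all_eq_true] at h
  obtain ⟨⟨h1, h2⟩, h3⟩ := h
  refine ⟨h1, h2, fun x hx y hy hT hT' he => ?_⟩
  have h4 := h3 x hx y hy
  rw [hT, hT', nbeq.2 he] at h4
  simpa [nbeq] using h4

theorem t_CHK : S_CHK := by
  intro ka kb k s σ τ TA TB G T h a b ha hb hsa hsb hm ho
  obtain ⟨x, n, hn, rfl⟩ := ha
  obtain ⟨y, m, hm', rfl⟩ := hb
  unfold chkJoin at h
  rw [Bool.and_eq_true] at h
  obtain ⟨h1, h2⟩ := h
  have h3 := all_find _ TB y m hm' h1
  have h4 := all_find _ TA x n hn h2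
  rw [List.any_eq_true] at h3
  obtain ⟨m', hm1, hm2⟩ := h3
  have h5 := eqS_eq _ _ hm2
  unfold rowOK at h4
  rw [List.all_eq_true] at h4
  have hk : ((ord τ (unp kb m)).take s).map Prod.fst =
      ((ord σ (unp ka n)).take s).map fun x => neg x.1 := by
    apply zip_key _ _ _ hm
    rw [List.length_take, List.length_take, min_eq_left hsa, min_eq_left hsb]
  rw [hk] at hm1
  have h6 := h4 m' hm1
  rw [h5] at h6
  unfold pairOK at h6
  rw [opn_B ho, Bool.not_true, Bool.false_or, List.any_eq_true] at h6
  obtain ⟨q, hq, hq'⟩ := h6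
  exact ⟨unp k q, ⟨_, q, hq, rfl⟩, crs_B hq'⟩

theorem t_CHC : S_CHC := by
  intro ka kb s σ τ TA TB h a b ha hb hm
  obtain ⟨x, n, hn, rfl⟩ := ha
  obtain ⟨y, m, hm', rfl⟩ := hb
  unfold chkClose at h
  have h1 := all_find _ TA x n hn h
  have h2 := all_find _ TB y m hm' h1
  unfold closeOK at h2
  have h3 : ((((ord σ (unp ka n)).take s).zip ((ord τ (unp kb m)).take s)).all
      fun x => Nat.beq x.2.1 (neg x.1.1)) = true := by
    rw [List.all_eq_true]
    intro z hz
    exact nbeq.2 (hm z hz)
  rw [h3, Bool.not_true, Bool.false_or, List.any_eq_true] at h2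
  obtain ⟨z, hz, h4⟩ := h2
  rw [List.any_eq_true] at h4
  obtain ⟨w, hw, h5⟩ := h4
  rw [Bool.and_eq_true, Bool.and_eq_true] at h5
  refine ⟨z, hz, w, hw, h5.1.1, h5.1.2, fun he => ?_⟩
  rw [nbeq.2 he] at h5
  simp at h5

end Pool.Agent.W120.NS
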