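import Pool.Agent.W420.NS.FStm

/-!
# The fast check of a join is sound
-/

set_option autoImplicit false

namespace Pool.Agent.W120.NS

open Pool.Agent.W420.NS

theorem fbeq {a b : ℕ} : Nat.beq a b = true ↔ a = b := by
  rw [Nat.beq_eq]

theorem br_and (b c : Bool) : @Bool.rec (fun _ => Bool) false b c = (c && b) := by
  cases c <;> rfl

theorem br_or (b c : Bool) : @Bool.rec (fun _ => Bool) b true c = (c || b) := by
  cases c <;> rfl

theorem allL_eq {α : Type} (f : α → Bool) : ∀ l : List α, allL f l = l.all f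
  | [] => rfl
  | x :: l => by
    have h : allL f (x :: l) = @Bool.rec (fun _ => Bool) false (allL f l) (f x) := rfl
    rw [h, br_and, allL_eq f l, List.all_cons]

theorem anyL_eq {α : Type} (f : α → Bool) : ∀ l : List α, anyL f l = l.any f
  | [] => rfl
  | x :: l => by
    have h : anyL f (x :: l) = @Bool.rec (fun _ => Bool) (anyL f l) true (f x) := rfl
    rw [h, br_or, anyL_eq f l, List.any_cons]

theorem find_node {α : Type} (d : α) (k : ℕ) (v : α) (l r : Tr α) (x : ℕ) :
    (Tr.node k v l r).find d x = @Bool.rec (fun _ => α) (r.find d x)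
      (@Bool.rec (fun _ => α) (l.find d x) v (Nat.beq x k)) (Nat.ble x k) := rfl

theorem allT_node (f : ℕ → ℕ → Bool) (k : ℕ) (v : List ℕ) (l r : Tr (List ℕ)) :
    (Tr.node k v l r).allT f = (v.all (f k) && (l.allT f && r.allT f)) := by
  have h : (Tr.node k v l r).allT f = @Bool.rec (fun _ => Bool) false
    (@Bool.rec (fun _ => Bool) false (r.allT f) (l.allT f)) (allL (f k) v) := rfl
  rw [h, br_and, br_and, allL_eq]

theorem allT_find (f : ℕ → ℕ → Bool) : ∀ (T : Tr (List ℕ)) (x m : ℕ), m ∈ T.find [] x →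
    T.allT f = true → f x m = true
  | .nil, x, m, h, _ => by
    have h' : m ∈ ([] : List ℕ) := h
    simp at h'
  | .node k v l r, x, m, h, ha => by
    rw [allT_node, Bool.and_eq_true, Bool.and_eq_true] at ha
    obtain ⟨h1, h2, h3⟩ := ha
    rw [find_node] at h
    cases hb : Nat.ble x k with
    | false =>
      rw [hb] at h
      exact allT_find f r x m h h3
    | true =>
      rw [hb] at h
      cases hc : Nat.beq x k with
      | false =>
        rw [hc] at h
        exact allT_find f l x m h h2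
      | true =>
        rw [hc] at h
        have he := fbeq.1 hc
        subst he
        exact List.all_eq_true.1 h1 m h

theorem mAll_find (ka kb s : ℕ) : ∀ (M : Tr (List ℕ)) (c : ℕ), mAll ka kb s M = true →
    mOK ka kb s c (M.find [] c) = true
  | .nil, c, _ => rfl
  | .node k v l r, c, h => by
    have h' : mAll ka kb s (Tr.node k v l r) = @Bool.rec (fun _ => Bool) false
      (@Bool.rec (fun _ => Bool) false (mAll ka kb s r) (mAll ka kb s l)) (mOK ka kb s k v) := rfl
    rw [h', br_and, br_and, Bool.and_eq_true, Bool.and_eq_true] at h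
    obtain ⟨h1, h2, h3⟩ := h
    rw [find_node]
    cases hb : Nat.ble c k with
    | false => exact mAll_find ka kb s r c h3
    | true =>
      cases hc : Nat.beq c k with
      | false => exact mAll_find ka kb s l c h2
      | true =>
        have he := fbeq.1 hc
        subst he
        exact h1

theorem zip_fst : ∀ (r t : St), t.length = r.length →
    (∀ x ∈ r.zip t, x.2.1 = x.1.1) → r.map Prod.fst = t.map Prod.fst
  | [], [], _, _ => rfl
  | [], y :: b, h, _ => by simp at h
  | x :: a, [], h, _ => by simp at h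
  | x :: a, y :: b, h, hx => by
    have h1 : y.1 = x.1 := hx (x, y) (by simp)
    have h2 := zip_fst a b (by simpa using h) fun z hz => hx z (by simp [hz])
    simp only [List.map_cons, h1, h2]

theorem crs_fst {r t : St} (h : crsB r t = true) : r.map Prod.fst = t.map Prod.fst := by
  unfold crsB at h
  simp only [Bool.and_eq_true, fbeq, List.all_eq_true] at h
  exact zip_fst r t h.1.1 h.1.2

theorem ty_fst (a : St) : (ty a).map Prod.fst =
    (a.map Prod.fst).map fun c => bif isT c then 1 else 4 := by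
  unfold ty
  rw [List.map_map, List.map_map]
  rfl

theorem unz_fst : ∀ (k x m n : ℕ), (unz k x m).map Prod.fst = (unz k x n).map Prod.fst
  | 0, _, _, _ => rfl
  | k + 1, x, m, n => by
    simp only [unz, List.map_cons, unz_fst k (x / 8) (m / 8) (n / 8)]

theorem cons_of : ∀ (k x w : ℕ), (ty (unz k x w)).map Prod.fst = (tys k w).map Prod.fst →
    cons k x w
  | 0, x, w, _ => by
    intro y hy
    simp [unz] at hy
  | k + 1, x, w, h => by
    have h' : (bif isT (x % 8) then 1 else 4) :: (ty (unz k (x / 8) (w / 8))).map Prod.fst =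
      (bif Nat.beq (w % 8) 0 then 4 else 1) :: (tys k (w / 8)).map Prod.fst := h
    obtain ⟨h1, h2⟩ := List.cons.inj h'
    have ih := cons_of k (x / 8) (w / 8) h2
    intro y hy
    have hy' : y ∈ (x % 8, w % 8) :: unz k (x / 8) (w / 8) := hy
    rcases List.mem_cons.1 hy' with rfl | hy'
    · show isT (x % 8) = !(Nat.beq (w % 8) 0)
      cases ha : isT (x % 8) <;> cases hb : Nat.beq (w % 8) 0 <;> rw [ha, hb] at h1 <;> simp_all
    · exact ih y hy'

theorem mrg_fst (s : ℕ) (a b : St) : (mrg s a b).map Prod.fst =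
    (a.drop s ++ b.drop s).map Prod.fst := by
  unfold mrg
  rw [List.map_append, List.map_append, List.map_map, List.map_map]
  rfl

theorem t_FMAIN (h1 : S_FORD) (h2 : S_FTY) (h3 : S_FDIG) : S_FMAIN := by
  intro ka kb s σ τ TA TB M G T hσ hτ hsa hsb hchk a b ha hb hm ho
  obtain ⟨x, m, hxm, hc, rfl⟩ := ha
  obtain ⟨y, n, hyn, hc', rfl⟩ := hb
  have lσ : σ.length = ka := by rw [hσ.length_eq, List.length_range]
  have lτ : τ.length = kb := by rw [hτ.length_eq, List.length_range]
  have mσ : ∀ i ∈ σ, i < ka := fun i hi => List.mem_range.1 (hσ.mem_iff.1 hi)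
  have mτ : ∀ i ∈ τ, i < kb := fun i hi => List.mem_range.1 (hτ.mem_iff.1 hi)
  obtain ⟨o1, o2, o3⟩ := h1 ka σ x m mσ
  obtain ⟨_, o4, _⟩ := h1 ka σ m m mσ
  obtain ⟨p1, p2, p3⟩ := h1 kb τ y n mτ
  obtain ⟨_, p4, _⟩ := h1 kb τ n n mτ
  rw [lσ] at o1 o2 o3 o4
  rw [lτ] at p1 p2 p3 p4
  have o5 := o3 hc
  have p5 := p3 hc'
  rw [o1, p1] at hm ho ⊢
  set x' := rn σ x with hx'
  set m' := rn σ m with hm'
  set y' := rn τ y with hy'
  set n' := rn τ n with hn'
  obtain ⟨f1, f2, f3, f4⟩ := h2
  obtain ⟨d1, d2, d3, d4⟩ := h3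
  -- the parts of the check
  have hchk' : chkJ ka kb s σ τ TA TB M G T = @Bool.rec (fun _ => Bool) false
    (@Bool.rec (fun _ => Bool) false
      (TA.allT fun x m => rOK ka s M G T (rn σ x) (rn σ m)) (mAll ka kb s M)) (gOK s τ TB G) := rfl
  rw [hchk', br_and, br_and, Bool.and_eq_true, Bool.and_eq_true] at hchk
  obtain ⟨c1, c2, c3⟩ := hchk
  have c4 := allT_find _ TA x m hxm c3
  have c5 := allT_find _ TB y n hyn c1
  have c6 : anyL (fun g : ℕ × List ℕ => @Bool.rec (fun _ => Bool) false
    (anyL (fun u => Nat.beq u (y' / 8 ^ s)) g.2) (Nat.beq g.1 n')) (G.find [] (y' % 8 ^ s)) = true :=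
    c5
  rw [anyL_eq, List.any_eq_true] at c6
  obtain ⟨g, hg, hg'⟩ := c6
  rw [br_and, Bool.and_eq_true, fbeq, anyL_eq, List.any_eq_true] at hg'
  obtain ⟨hg1, u, hu, hu'⟩ := hg'
  rw [fbeq] at hu'
  subst hu'
  have e1 : negD s x' = y' % 8 ^ s := d4 s ka kb x' y' m' n' hsa hsb hm
  have c7 : allL (fun g : ℕ × List ℕ => pOK (M.find [] (m' + 8 ^ ka * g.1)) (x' / 8 ^ s)
    (8 ^ (ka - s)) T g.2) (G.find [] (negD s x')) = true := c4
  rw [allL_eq, e1, List.all_eq_true] at c7
  have c8 := c7 g hg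
  rw [hg1] at c8
  have c9 := mAll_find ka kb s M (m' + 8 ^ ka * n') c2
  set v := M.find [] (m' + 8 ^ ka * n') with hv
  have hpos : 0 < 8 ^ ka := Nat.pow_pos (by norm_num)
  have e2 : (m' + 8 ^ ka * n') % 8 ^ ka = m' := by
    rw [Nat.add_mul_mod_self_left, Nat.mod_eq_of_lt o4]
  have e3 : (m' + 8 ^ ka * n') / 8 ^ ka = n' := by
    rw [Nat.add_mul_div_left _ _ hpos, Nat.div_eq_of_lt o4, zero_add]
  unfold mOK at c9
  rw [List.all_eq_true, e2, e3, f1 ka x' m' o5, f1 kb y' n' p5] at c9
  have c10 : @Bool.rec (fun _ => Bool)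
    (allL (fun y => anyL (fun w => anyL (fun u => Nat.beq u w) v)
      (T.find [] (x' / 8 ^ s + 8 ^ (ka - s) * y))) g.2)
    true (anyL (fun u => Nat.beq u big) v) = true := c8
  cases hbig : anyL (fun u => Nat.beq u big) v with
  | true =>
    exfalso
    rw [anyL_eq, List.any_eq_true] at hbig
    obtain ⟨w, hw, hw'⟩ := hbig
    have c11 := c9 w hw
    rw [hw', (f3 s _ _).2 ho] at c11
    simp at c11
  | false =>
    rw [hbig] at c10
    have c11 : allL (fun y => anyL (fun w => anyL (fun u => Nat.beq u w) v)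
      (T.find [] (x' / 8 ^ s + 8 ^ (ka - s) * y))) g.2 = true := c10
    rw [allL_eq, List.all_eq_true] at c11
    have c12 := c11 _ hu
    rw [anyL_eq, List.any_eq_true] at c12
    obtain ⟨w, hw, hw'⟩ := c12
    rw [anyL_eq, List.any_eq_true] at hw'
    obtain ⟨w', hwv, hww⟩ := hw'
    rw [fbeq] at hww
    subst hww
    have hwb : Nat.beq w' big = false := by
      cases hc0 : Nat.beq w' big with
      | false => rfl
      | true =>
        exfalso
        rw [anyL_eq] at hbig
        have : v.any (fun u => Nat.beq u big) = true := List.any_eq_true.2 ⟨w', hwv, hc0⟩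
        rw [this] at hbig
        exact Bool.noConfusion hbig
    have c13 := c9 w' hwv
    rw [hwb] at c13
    have c14 : crsB (mrg s (ty (unz ka x' m')) (ty (unz kb y' n')))
      (tys ((ka - s) + (kb - s)) w') = true := c13
    rw [f2] at c14
    set K := (ka - s) + (kb - s) with hK
    set Z := x' / 8 ^ s + 8 ^ (ka - s) * (y' / 8 ^ s) with hZ
    have lt1 : ∀ z, z < 8 ^ ka → z / 8 ^ s < 8 ^ (ka - s) := by
      intro z hz
      rw [Nat.div_lt_iff_lt_mul (Nat.pow_pos (by norm_num)), ← pow_add]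
      rwa [show ka - s + s = ka by omega]
    have e4 : (mrg s (unz ka x' m') (unz kb y' n')).map Prod.fst = (unz K Z w').map Prod.fst := by
      rw [mrg_fst, d1 s ka x' m' hsa, d1 s kb y' n' hsb, d2 (ka - s) (kb - s) _ _ _ _ (lt1 _ o2)
        (lt1 _ o4)]
      exact unz_fst _ _ _ _
    have e5 : cons K Z w' := by
      apply cons_of
      rw [ty_fst, ← e4, ← ty_fst]
      exact crs_fst c14
    refine ⟨unz K Z w', ⟨Z, w', hw, e5, rfl⟩, f4 _ _ e4 ?_⟩
    rw [← f1 K Z w' e5]
    exact c14

end Pool.Agent.W120.NS
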